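import Pool.Agent.Lib.MP_90cf6f_nt.Five

namespace Pool.Agent.Results.MP_90cf6f_nt.FourSquares

open Pool.Agent.Lib.MP_90cf6f_nt

/-- Four sets `C_Q` with square `Q` (five twists) from three squares in arithmetic progression. -/
theorem result (p q r m K L : ℕ) (hp : 1 ≤ p) (hm : 1 ≤ m) (hK : 1 ≤ K) (hL : 1 ≤ L)
    (e1 : p ^ 2 + m = q ^ 2) (e2 : q ^ 2 + m = r ^ 2) (h : IsSquare (K * L * m)) :
    {a : ℕ | a ∈ CQ ((p * q) ^ 2) ∩ CQ ((p * r) ^ 2) ∩ CQ (K ^ 2) ∩ CQ (L ^ 2) ∧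
      ∀ l : ℕ, l.Prime → ¬l ^ 4 ∣ a}.Infinite :=
  five_main hp hm hK hL e1 e2 h

end Pool.Agent.Results.MP_90cf6f_nt.FourSquares
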